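import Mathlib
import Pool.Agent.V11141.EtaDef
import Pool.Agent.V11141.EtaMain

/-!
# Zero total curvature on discrete varieties
-/

namespace Pool.Agent.Results.MP_dbf4ef_co.ZeroCurvature

open Pool.Agent.V11141.Eta

/-- For every `d ≥ 0` and every `d`-variety `G`, the sum over the vertices `x` of the
Barycentric refinement of the Euler characteristics of the unit spheres vanishes if and only if
all these Euler characteristics vanish. -/
theorem result {V : Type} [Fintype V] (G : SimpleGraph V) (d : ℕ)
    (hG : IsVariety G (d + 1) Finset.univ) :
    ∑ x : BV G, curv G x = 0 ↔ ∀ x : BV G, curv G x = 0 :=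
  zero_iff G hG

end Pool.Agent.Results.MP_dbf4ef_co.ZeroCurvature
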